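import Pool.Agent.HIP.Stmts

/-! Squad HIP, row HSD (helper17): the size of a determinant (house). -/

set_option autoImplicit false

namespace Pool.Agent.HIP.H17

open Polynomial NumberField Matrix Pool.Agent.HIK Pool.Agent.HIP

theorem norm_det_le' (n : ℕ) (A : Matrix (Fin n) (Fin n) ℂ) (B : Fin n → ℝ)
    (h : ∀ i j, ‖A i j‖ ≤ B j) :
    ‖A.det‖ ≤ (n.factorial : ℝ) * ∏ j, B j := by
  rw [Matrix.det_apply]
  refine (norm_sum_le _ _).trans ?_
  have hcard : (Finset.univ : Finset (Equiv.Perm (Fin n))).card = n.factorial := by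
    rw [Finset.card_univ, Fintype.card_perm, Fintype.card_fin]
  rw [← hcard, ← nsmul_eq_mul]
  refine Finset.sum_le_card_nsmul _ _ _ fun σ _ => ?_
  have hsgn : ‖(((Equiv.Perm.sign σ : ℤˣ) : ℤ) : ℂ)‖ = 1 := by
    rcases Int.units_eq_one_or (Equiv.Perm.sign σ) with h | h <;> simp [h]
  rw [Units.smul_def, zsmul_eq_mul, norm_mul, hsgn, one_mul, norm_prod]
  exact Finset.prod_le_prod (fun i _ => norm_nonneg _) (fun i _ => h _ i)

theorem hsd : HsdStmt := by
  intro K _ _ n A B h
  rcases Nat.eq_zero_or_pos n with h0 | h0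
  · subst h0
    simp only [Matrix.det_fin_zero, Finset.univ_eq_empty, Finset.prod_empty, Nat.factorial_zero,
      Nat.cast_one, mul_one]
    rw [house, pi_norm_le_iff_of_nonneg (by norm_num)]
    intro σ
    have h1 : canonicalEmbedding K (1 : K) σ = σ (1 : K) := rfl
    rw [h1, map_one, norm_one]
  · have hB : ∀ j, 0 ≤ B j := fun j => (house_nonneg _).trans (h ⟨0, h0⟩ j)
    rw [house, pi_norm_le_iff_of_nonneg (mul_nonneg (by positivity)
      (Finset.prod_nonneg fun j _ => hB j))]
    intro σ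
    have h1 : canonicalEmbedding K A.det σ = σ A.det := rfl
    rw [h1, RingHom.map_det]
    exact norm_det_le' n _ B (fun i j => (norm_embedding_le_house _ σ).trans (h i j))

end Pool.Agent.HIP.H17
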